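import Pool.Agent.Lib.MP_869d3b_nt.StmU2

set_option autoImplicit false

open NumberField IsDedekindDomain

open scoped Pointwise

namespace Pool.Agent.Lib.MP_869d3b_nt.U

private theorem c1_smul_prod {L G : Type} [Field L] [NumberField L] [Group G]
    [MulSemiringAction G (𝓞 L)] (s : Finset (Ideal (𝓞 L))) (hs : ∀ (σ : G) (Q : Ideal (𝓞 L)), Q ∈ s → σ • Q ∈ s)
    (σ : G) : σ • (∏ Q ∈ s, Q) = ∏ Q ∈ s, Q := by
  rw [Finset.smul_prod']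
  refine Finset.prod_bij' (fun Q _ => σ • Q) (fun Q _ => σ⁻¹ • Q) (fun Q hQ => hs σ Q hQ)
    (fun Q hQ => hs σ⁻¹ Q hQ) (fun Q _ => inv_smul_smul σ Q) (fun Q _ => smul_inv_smul σ Q)
    (fun Q _ => rfl)

theorem p_C1 : S_C1 := by
  intro k L _ _ _ _ _ _ q hqp hq0
  classical
  haveI : q.IsPrime := hqp
  haveI hqm : q.IsMaximal := hqp.isMaximal hq0
  haveI : Fintype (q.primesOver (𝓞 L)) := (IsDedekindDomain.primesOver_finite q (𝓞 L)).fintype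
  have hmem : ∀ Q : Ideal (𝓞 L), Q ∈ (q.primesOver (𝓞 L)).toFinset ↔ Q.IsPrime ∧ Q.LiesOver q := by
    intro Q
    rw [Set.mem_toFinset]
    rfl
  have hne : ∀ Q : Ideal (𝓞 L), Q ∈ (q.primesOver (𝓞 L)).toFinset → Q ≠ ⊥ := by
    intro Q hQ
    obtain ⟨h1, h2⟩ := (hmem Q).1 hQ
    exact Ideal.ne_bot_of_liesOver_of_ne_bot hq0 Q
  have hsm : ∀ (σ : L ≃ₐ[k] L) (Q : Ideal (𝓞 L)), Q ∈ (q.primesOver (𝓞 L)).toFinset →
      σ • Q ∈ (q.primesOver (𝓞 L)).toFinset := by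
    intro σ Q hQ
    obtain ⟨h1, h2⟩ := (hmem Q).1 hQ
    exact (hmem _).2 ⟨inferInstance, inferInstance⟩
  refine ⟨∏ Q ∈ (q.primesOver (𝓞 L)).toFinset, Q, ?_, ?_, ?_, ?_, ?_⟩
  · rw [← Ideal.zero_eq_bot, Finset.prod_ne_zero_iff]
    intro Q hQ
    exact hne Q hQ
  · obtain ⟨P⟩ := (inferInstance : Nonempty (q.primesOver (𝓞 L)))
    have hP : P.1 ∈ (q.primesOver (𝓞 L)).toFinset := (hmem _).2 ⟨P.2.1, P.2.2⟩
    intro h
    have h1 : (∏ Q ∈ (q.primesOver (𝓞 L)).toFinset, Q) ≤ P.1 :=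
      Ideal.le_of_dvd (Finset.dvd_prod_of_mem (fun Q : Ideal (𝓞 L) => Q) hP)
    rw [h] at h1
    exact P.2.1.ne_top (top_le_iff.1 h1)
  · intro σ
    exact c1_smul_prod _ hsm σ
  · rw [Ideal.map_algebraMap_eq_finsetProd_pow (S := 𝓞 k) (R := 𝓞 L) hq0, ← Finset.prod_pow]
    refine Finset.prod_congr (by ext; simp) ?_
    intro Q hQ
    obtain ⟨h1, h2⟩ := (hmem Q).1 (by simpa using hQ)
    rw [Ideal.ramificationIdxIn_eq_ramificationIdx q Q (L ≃ₐ[k] L)]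
  · intro I hI Q hQp hQ hIQ
    haveI := hQp
    haveI : Q.LiesOver q := ⟨hQ.symm⟩
    refine Finset.prod_primes_dvd I ?_ ?_
    · intro P hP
      exact Ideal.prime_of_isPrime (hne P hP) ((hmem P).1 hP).1
    · intro P hP
      obtain ⟨h1, h2⟩ := (hmem P).1 hP
      obtain ⟨σ, hσ⟩ := Ideal.exists_smul_eq_of_isGaloisGroup q Q P (L ≃ₐ[k] L)
      rw [Ideal.dvd_iff_le, ← hσ, ← hI σ]
      exact Ideal.pointwise_smul_le_pointwise_smul_iff.2 hIQ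

end Pool.Agent.Lib.MP_869d3b_nt.U
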