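import Pool.Agent.Lib.MP_869d3b_nt.StmU2

set_option autoImplicit false

open NumberField IsDedekindDomain
open scoped Pointwise

namespace Pool.Agent.Lib.MP_869d3b_nt.U

theorem p_C5 : S_C5 := by
  intro k L _ _ _ _ _ _ v
  have h1 : v.asIdeal.ramificationIdxIn (𝓞 L) ≠ 0 :=
    Ideal.ramificationIdxIn_ne_zero (L ≃ₐ[k] L)
  have h := Ideal.ncard_primesOver_mul_ramificationIdxIn_mul_inertiaDegIn v.asIdeal (𝓞 L)
    (L ≃ₐ[k] L)
  rw [IsGalois.card_aut_eq_finrank] at h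
  refine ⟨h1, Nat.le_of_dvd Module.finrank_pos ⟨(v.asIdeal.primesOver (𝓞 L)).ncard *
    v.asIdeal.inertiaDegIn (𝓞 L), ?_⟩⟩
  rw [← h]
  ring

end Pool.Agent.Lib.MP_869d3b_nt.U
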