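import Pool.Agent.Lib.MP_869d3b_nt.StmU2

set_option autoImplicit false

open NumberField IsDedekindDomain

open scoped Pointwise

namespace Pool.Agent.Lib.MP_869d3b_nt.U

private lemma c2_smul_mul {k L : Type} [Field k] [NumberField k] [Field L] [NumberField L]
    [Algebra k L] (σ : L ≃ₐ[k] L) (I J : Ideal (𝓞 L)) : σ • (I * J) = (σ • I) * (σ • J) := by
  simp only [Ideal.pointwise_smul_def, Ideal.map_mul]

private lemma c2_split {k L : Type} [Field k] [NumberField k] [Field L] [NumberField L]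
    [Algebra k L] (R I : Ideal (𝓞 L)) (hR0 : R ≠ ⊥) (hR1 : R ≠ ⊤)
    (hRs : ∀ σ : L ≃ₐ[k] L, σ • R = R) (hI0 : I ≠ ⊥) (hIs : ∀ σ : L ≃ₐ[k] L, σ • I = I)
    (hd : R ∣ I) : ∃ I' : Ideal (𝓞 L), I = R * I' ∧ I' ≠ ⊥ ∧ (∀ σ : L ≃ₐ[k] L, σ • I' = I') ∧
      Ideal.absNorm I' < Ideal.absNorm I := by
  obtain ⟨I', rfl⟩ := hd
  have hI' : I' ≠ ⊥ := by
    rintro rfl
    exact hI0 (by simp)
  refine ⟨I', rfl, hI', fun σ => ?_, ?_⟩
  · have h := hIs σ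
    rw [c2_smul_mul, hRs σ] at h
    exact mul_left_cancel₀ (by simpa using hR0) h
  · rw [map_mul]
    have h1 : Ideal.absNorm R ≠ 0 := by
      intro h; exact hR0 (Ideal.absNorm_eq_zero_iff.mp h)
    have h2 : Ideal.absNorm R ≠ 1 := by
      intro h; exact hR1 (Ideal.absNorm_eq_one_iff.mp h)
    have h3 : 0 < Ideal.absNorm I' := by
      refine Nat.pos_of_ne_zero fun h => hI' (Ideal.absNorm_eq_zero_iff.mp h)
    have h4 : 2 ≤ Ideal.absNorm R := by omega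
    nlinarith

theorem p_C2 (h1 : S_C1) (h5 : S_C5) : S_C2 := by
  intro k L _ _ _ _ _ _ v hur
  obtain ⟨R, hR0, hR1, hRs, hRq, hRd⟩ := h1 k L v.asIdeal v.isPrime v.ne_bot
  obtain ⟨he0, -⟩ := h5 k L v
  refine ⟨R, ?_⟩
  suffices H : ∀ (N : ℕ) (I : Ideal (𝓞 L)), Ideal.absNorm I = N → I ≠ ⊥ →
      (∀ σ : L ≃ₐ[k] L, σ • I = I) → ∃ a : ℕ, a < v.asIdeal.ramificationIdxIn (𝓞 L) ∧
        ∃ J : Ideal (𝓞 k), J ≠ ⊥ ∧ I = R ^ a * J.map (algebraMap (𝓞 k) (𝓞 L)) from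
    fun I hI hIs => H _ I rfl hI hIs
  intro N
  induction N using Nat.strong_induction_on with
  | _ N ih =>
    intro I hN hI0 hIs
    by_cases hIt : I = ⊤
    · refine ⟨0, Nat.pos_of_ne_zero he0, ⊤, top_ne_bot, ?_⟩
      rw [pow_zero, one_mul, Ideal.map_top, hIt]
    · obtain ⟨Q, hQm, hIQ⟩ := Ideal.exists_le_maximal I hIt
      have hQp : Q.IsPrime := hQm.isPrime
      have hQ0 : Q ≠ ⊥ := fun h => hI0 (le_bot_iff.mp (h ▸ hIQ))
      have hqp : (Q.under (𝓞 k)).IsPrime := Ideal.IsPrime.under (𝓞 k) Q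
      have hq0 : Q.under (𝓞 k) ≠ ⊥ := Ideal.IsIntegral.comap_ne_bot _ hQ0
      by_cases hq : Q.under (𝓞 k) = v.asIdeal
      · obtain ⟨I', rfl, hI'0, hI's, hlt⟩ := c2_split R I hR0 hR1 hRs hI0 hIs
          (hRd I hIs Q hQp hq hIQ)
        obtain ⟨a, ha, J, hJ0, hJ⟩ := ih _ (hN ▸ hlt) I' rfl hI'0 hI's
        by_cases ha' : a + 1 < v.asIdeal.ramificationIdxIn (𝓞 L)
        · refine ⟨a + 1, ha', J, hJ0, ?_⟩
          rw [hJ, pow_succ', mul_assoc]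
        · have hae : a + 1 = v.asIdeal.ramificationIdxIn (𝓞 L) := by omega
          refine ⟨0, Nat.pos_of_ne_zero he0, v.asIdeal * J, mul_ne_zero v.ne_bot hJ0, ?_⟩
          rw [pow_zero, one_mul, Ideal.map_mul, hRq, ← hae, hJ, pow_succ', mul_assoc]
      · obtain ⟨R', hR'0, hR'1, hR's, hR'q, hR'd⟩ := h1 k L (Q.under (𝓞 k)) hqp hq0
        obtain ⟨I', rfl, hI'0, hI's, hlt⟩ := c2_split R' I hR'0 hR'1 hR's hI0 hIs
          (hR'd I hIs Q hQp rfl hIQ)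
        obtain ⟨a, ha, J, hJ0, hJ⟩ := ih _ (hN ▸ hlt) I' rfl hI'0 hI's
        have hlo : Q.LiesOver (Q.under (𝓞 k)) := ⟨rfl⟩
        have he : (Q.under (𝓞 k)).ramificationIdxIn (𝓞 L) = 1 := by
          rw [Ideal.ramificationIdxIn_eq_ramificationIdx (Q.under (𝓞 k)) Q (L ≃ₐ[k] L)]
          exact hur Q hQp hQ0 hq
        rw [he, pow_one] at hR'q
        refine ⟨a, ha, Q.under (𝓞 k) * J, mul_ne_zero hq0 hJ0, ?_⟩
        rw [Ideal.map_mul, hR'q, hJ]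
        ring

end Pool.Agent.Lib.MP_869d3b_nt.U
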