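import Pool.Agent.Lib.MP_869d3b_nt.StmU2

/-!
# MP_869d3b_nt, piece `[U2 C3]`: Hilbert 90 for units of norm one
-/

set_option autoImplicit false

open NumberField IsDedekindDomain

open scoped Pointwise

namespace Pool.Agent.Lib.MP_869d3b_nt.U

private theorem c3_norm (k L : Type) [Field k] [NumberField k] [Field L] [NumberField L]
    [Algebra k L] [IsGalois k L] (η : Lˣ) (h : nMap k L η = 1) :
    Algebra.norm k ((η⁻¹ : Lˣ) : L) = 1 := by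
  apply (algebraMap k L).injective
  rw [Algebra.norm_eq_prod_automorphisms, map_one]
  have h1 : nMap k L η⁻¹ = 1 := by rw [map_inv, h, inv_one]
  have h2 : ((nMap k L η⁻¹ : Lˣ) : L) = ∏ σ : L ≃ₐ[k] L, σ ((η⁻¹ : Lˣ) : L) := by
    unfold nMap
    rw [MonoidHom.finsetProd_apply, Units.coe_prod]
    rfl
  rw [← h2, h1, Units.val_one]

/-- Hilbert 90: units of norm one -/
theorem p_C3 : S_C3 := by
  intro k L _ _ _ _ _ _ g hg η hη hn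
  obtain ⟨u, rfl⟩ := hη
  have : IsCyclic (L ≃ₐ[k] L) := ⟨g, hg⟩
  have h1 := c3_norm k L _ hn
  have h2 : Algebra.norm k (algebraMap (𝓞 L) L ((u⁻¹ : (𝓞 L)ˣ) : 𝓞 L)) = 1 := by
    have h3 : algebraMap (𝓞 L) L ((u⁻¹ : (𝓞 L)ˣ) : 𝓞 L) =
        (((Units.map (algebraMap (𝓞 L) L : (𝓞 L) →* L) u)⁻¹ : Lˣ) : L) := by
      rw [← map_inv]
      rfl
    rw [h3]
    exact h1
  obtain ⟨ε, hε, h⟩ := groupCohomology.exists_mul_galRestrict_of_norm_eq_one (A := 𝓞 k) (K := k)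
    (L := L) (B := 𝓞 L) hg h2
  refine ⟨ε, hε, ?_⟩
  have h4 := congrArg (algebraMap (𝓞 L) L) h
  rw [map_mul, algebraMap_galRestrict_apply] at h4
  have h5 : algebraMap (𝓞 L) L (u : 𝓞 L) * algebraMap (𝓞 L) L ((u⁻¹ : (𝓞 L)ˣ) : 𝓞 L) = 1 := by
    rw [← map_mul, Units.mul_inv, map_one]
  show g (algebraMap (𝓞 L) L ε) = algebraMap (𝓞 L) L (u : 𝓞 L) * algebraMap (𝓞 L) L ε
  calc g (algebraMap (𝓞 L) L ε)
      = (algebraMap (𝓞 L) L (u : 𝓞 L) * algebraMap (𝓞 L) L ((u⁻¹ : (𝓞 L)ˣ) : 𝓞 L)) *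
        g (algebraMap (𝓞 L) L ε) := by rw [h5, one_mul]
    _ = algebraMap (𝓞 L) L (u : 𝓞 L) * (algebraMap (𝓞 L) L ((u⁻¹ : (𝓞 L)ˣ) : 𝓞 L) *
        g (algebraMap (𝓞 L) L ε)) := by rw [mul_assoc]
    _ = _ := by rw [h4]

end Pool.Agent.Lib.MP_869d3b_nt.U
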