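import Pool.Agent.Lib.MP_869d3b_nt.StmU2

/-!
# MP_869d3b_nt : Theorem U from (U1), (U2), (U34)
-/

set_option autoImplicit false

open NumberField IsDedekindDomain

open scoped Pointwise

namespace Pool.Agent.Lib.MP_869d3b_nt.U

/-- a nonzero element of `𝓞 k` is not in all powers of `v` -/
private theorem thmU_krull (k : Type) [Field k] [NumberField k] (v : HeightOneSpectrum (𝓞 k))
    (x : 𝓞 k) (hx : x ≠ 0) : ∃ c : ℕ, x ∉ v.asIdeal ^ (c + 1) := by
  by_contra h
  push Not at h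
  have h1 : x ∈ (⨅ i : ℕ, v.asIdeal ^ i : Ideal (𝓞 k)) := by
    rw [Submodule.mem_iInf]
    intro i
    exact Ideal.pow_le_pow_right (Nat.le_succ i) (h i)
  rw [Ideal.iInf_pow_eq_bot_of_isDomain _ v.isPrime.ne_top] at h1
  exact hx h1

theorem thmU (hU1 : S_U1) (hU34 : S_U34) (hU2 : S_U2) (h5 : S_C5) : S_thmU := by
  intro k _ _ _ v hv2 hv ε hε
  have hc : ∀ m : ℕ, ∃ c : ℕ, 0 < m → ((ε ^ m : (𝓞 k)ˣ) : 𝓞 k) ^ 2 - 1 ∉ v.asIdeal ^ (c + 1) := by
    intro m
    by_cases hm : 0 < m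
    · obtain ⟨c, hc⟩ := thmU_krull k v (((ε ^ m : (𝓞 k)ˣ) : 𝓞 k) ^ 2 - 1) (by
        intro h
        refine hε (m * 2) (by omega) ?_
        rw [pow_mul]
        ext1
        push_cast at h ⊢
        exact sub_eq_zero.mp h)
      exact ⟨c, fun _ => hc⟩
    · exact ⟨0, fun h => absurd h hm⟩
  choose c hc using hc
  refine ⟨classNumber k * 2 ^ ((Finset.range (classNumber k + 1)).sup c), ?_⟩
  intro L _ _ _ _ hcyc hram
  obtain ⟨g, hg⟩ := hcyc.exists_generator
  obtain ⟨h0, h1⟩ := hU1 k L g hg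
  have h2 := hU2 k L g hg v hram
  obtain ⟨he, hen⟩ := h5 k L v
  rw [h1] at h2
  set m : ℕ := ((uE L).map (nMap k L)).relIndex ((dMap g).ker ⊓ uE L) with hm
  have hn : 0 < Module.finrank k L := Module.finrank_pos
  have hmh : m ≤ classNumber k := by
    have h3 : Module.finrank k L * m ≤ classNumber k * Module.finrank k L :=
      h2.trans (Nat.mul_le_mul_left _ hen)
    rw [mul_comm] at h3
    exact Nat.le_of_mul_le_mul_right h3 hn
  have hm0 : 0 < m := Nat.pos_of_ne_zero h0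
  -- the power of `ε`
  have hεL : ∃ η ∈ uE L, (nMap k L η : L) =
      algebraMap k L (algebraMap (𝓞 k) k ((ε ^ m : (𝓞 k)ˣ) : 𝓞 k)) := by
    set x : Lˣ := Units.map (algebraMap (𝓞 L) L : 𝓞 L →* L)
      (Units.map (algebraMap (𝓞 k) (𝓞 L) : 𝓞 k →* 𝓞 L) ε) with hx
    have hxc : (x : L) = algebraMap k L (algebraMap (𝓞 k) k (ε : 𝓞 k)) := by
      rw [hx]
      rfl
    have hxu : x ∈ uE L := ⟨_, rfl⟩
    have hxd : x ∈ (dMap g).ker := by
      rw [MonoidHom.mem_ker]
      have hgx : act g x = x := by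
        ext1
        show g (x : L) = x
        rw [hxc, AlgEquiv.commutes]
      show act g x / x = 1
      rw [hgx, div_self']
    have h6 := Subgroup.pow_index_mem
      (((uE L).map (nMap k L)).subgroupOf ((dMap g).ker ⊓ uE L)) ⟨x, hxd, hxu⟩
    rw [Subgroup.mem_subgroupOf] at h6
    obtain ⟨η, hη, hη'⟩ := h6
    refine ⟨η, hη, ?_⟩
    rw [hη']
    show (((x : Lˣ) ^ m : Lˣ) : L) = _
    rw [Units.val_pow_eq_pow_val, hxc]
    push_cast
    simp
  have h7 := hU34 k L g hg v hv2 hv (ε ^ m) (c m) (hc m hm0) hεL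
  have h8 : c m ≤ (Finset.range (classNumber k + 1)).sup c :=
    Finset.le_sup (f := c) (Finset.mem_range.mpr (by omega))
  calc Module.finrank k L ≤ Module.finrank k L * m := Nat.le_mul_of_pos_right _ hm0
    _ ≤ classNumber k * v.asIdeal.ramificationIdxIn (𝓞 L) := h2
    _ ≤ classNumber k * 2 ^ ((Finset.range (classNumber k + 1)).sup c) :=
        Nat.mul_le_mul_left _ (h7.trans (Nat.pow_le_pow_right (by norm_num) h8))

end Pool.Agent.Lib.MP_869d3b_nt.U
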