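import Pool.Agent.Lib.MP_869d3b_nt.StmI
import Pool.Agent.Lib.MP_869d3b_nt.U2.ThmU

/-!
# MP_869d3b_nt : the interface statement `S_U` from Theorem U
-/

set_option autoImplicit false

open NumberField IsDedekindDomain

namespace Pool.Agent.Lib.MP_869d3b_nt

theorem p_U_of (hT : U.S_thmU) : S_U := by
  intro k _ _ _ v hv2 hv ε hε
  have hn : Ideal.absNorm v.asIdeal = 2 := by
    rw [Ideal.absNorm_apply, Submodule.cardQuot_apply]
    exact hv2
  obtain ⟨C, hC⟩ := hT k v hn hv ε hε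
  refine ⟨C, ?_⟩
  intro L _ _ _ hgal hcyc _ hun
  refine hC L hcyc ?_
  intro Q hQ _ hQv
  have := hun Q hQv
  exact Ideal.ramificationIdx_eq_one_of_isUnramifiedAt

end Pool.Agent.Lib.MP_869d3b_nt
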