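import Pool.Agent.Lib.MP_869d3b_nt.StmU2

/-! MP_869d3b_nt, piece U2 RI: index at most the number of classes. -/

set_option autoImplicit false

open NumberField IsDedekindDomain

open scoped Pointwise

namespace Pool.Agent.Lib.MP_869d3b_nt.U

/-- Index at most the number of classes. -/
theorem p_RI : S_RI := by
  intro G _ H K ι _ F h
  rw [Subgroup.relIndex, Subgroup.index]
  refine Nat.card_le_card_of_injective (fun c : K ⧸ H.subgroupOf K => F ((Quotient.out c : K) : G)) ?_
  intro c d hcd
  have h1 := h _ (Quotient.out c : K).2 _ (Quotient.out d : K).2 hcd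
  have h2 : ((Quotient.out c : K) : K ⧸ H.subgroupOf K) = ((Quotient.out d : K) : K ⧸ H.subgroupOf K) := by
    rw [QuotientGroup.eq, Subgroup.mem_subgroupOf]
    have h3 := H.inv_mem h1
    have h4 : ((((Quotient.out c : K))⁻¹ * (Quotient.out d : K) : K) : G) =
        (((Quotient.out c : K) : G) / ((Quotient.out d : K) : G))⁻¹ := by
      rw [inv_div, Subgroup.coe_mul, Subgroup.coe_inv, div_eq_mul_inv, mul_comm]
    rw [h4]
    exact h3
  rw [QuotientGroup.out_eq', QuotientGroup.out_eq'] at h2
  exact h2

end Pool.Agent.Lib.MP_869d3b_nt.U
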