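import Pool.Agent.Lib.MP_869d3b_nt.StmU2

/-!
# [U2] The index of `D E` in the units of norm one is at most `h_k e`
-/

set_option autoImplicit false

open NumberField IsDedekindDomain

open scoped Pointwise nonZeroDivisors

namespace Pool.Agent.Lib.MP_869d3b_nt.U

/-- A unit of norm one multiplies some integer, which generates a stable ideal. -/
theorem u2_stable (k L : Type) [Field k] [NumberField k] [Field L] [NumberField L] [Algebra k L]
    (g : L ≃ₐ[k] L) (hg : ∀ x, x ∈ Subgroup.zpowers g) (η : Lˣ) (hη : η ∈ uE L) (b : 𝓞 L)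
    (hb : g (b : L) = η * b) (σ : L ≃ₐ[k] L) :
    σ • (Ideal.span {b} : Ideal (𝓞 L)) = Ideal.span {b} := by
  obtain ⟨u, rfl⟩ := hη
  have h1 : g • b = (u : 𝓞 L) * b := by
    apply RingOfIntegers.ext
    exact hb
  have h2 : g • (Ideal.span {b} : Ideal (𝓞 L)) = Ideal.span {b} := by
    rw [Ideal.pointwise_smul_def, Ideal.map_span, Set.image_singleton]
    change Ideal.span {g • b} = Ideal.span {b}
    rw [h1, Ideal.span_singleton_mul_left_unit u.isUnit]
  have h3 : Subgroup.zpowers g ≤ MulAction.stabilizer (L ≃ₐ[k] L) (Ideal.span {b} : Ideal (𝓞 L)) := by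
    rw [Subgroup.zpowers_le]
    exact h2
  exact h3 (hg σ)

/-- The final comparison. -/
theorem u2_compare (k L : Type) [Field k] [NumberField k] [Field L] [NumberField L] [Algebra k L]
    (g : L ≃ₐ[k] L) (η η' : Lˣ) (b b' : 𝓞 L) (hb0 : b ≠ 0)
    (hb : g (b : L) = η * b) (hb' : g (b' : L) = η' * b') (x y : 𝓞 k)
    (hx0 : x ≠ 0)
    (h : Ideal.span {algebraMap (𝓞 k) (𝓞 L) x * b} = Ideal.span {algebraMap (𝓞 k) (𝓞 L) y * b'}) :
    η / η' ∈ (uE L).map (dMap g) := by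
  rw [Ideal.span_singleton_eq_span_singleton] at h
  obtain ⟨u, hu⟩ := h
  -- in `L`
  have hL : algebraMap k L (x : k) * (b : L) * ((u : 𝓞 L) : L) = algebraMap k L (y : k) * (b' : L) := by
    have := congrArg (algebraMap (𝓞 L) L) hu
    rw [map_mul, map_mul, map_mul] at this
    exact this
  have hgL := congrArg g hL
  rw [map_mul, map_mul, map_mul, AlgEquiv.commutes, AlgEquiv.commutes, hb, hb'] at hgL
  have hinj : Function.Injective (algebraMap k L) := (algebraMap k L).injective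
  have hx : algebraMap k L (x : k) ≠ 0 := by
    rw [Ne, map_eq_zero_iff _ hinj]
    exact fun h0 => hx0 (by exact_mod_cast h0)
  have hbL : (b : L) ≠ 0 := fun h0 => hb0 (by exact_mod_cast h0)
  have h3 : (η : L) * g ((u : 𝓞 L) : L) = (η' : L) * ((u : 𝓞 L) : L) := by
    have h4 : (algebraMap k L (x : k) * (b : L)) * ((η : L) * g ((u : 𝓞 L) : L))
        = (algebraMap k L (x : k) * (b : L)) * ((η' : L) * ((u : 𝓞 L) : L)) := by
      linear_combination hgL - (η' : L) * hL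
    exact mul_left_cancel₀ (mul_ne_zero hx hbL) h4
  let U : Lˣ := Units.map (algebraMap (𝓞 L) L : (𝓞 L) →* L) u
  refine ⟨U⁻¹, (uE L).inv_mem ⟨u, rfl⟩, ?_⟩
  have h5 : η * act g U = η' * U := by
    apply Units.ext
    exact h3
  have h6 : dMap g U = act g U / U := rfl
  rw [map_inv, h6, inv_div]
  rw [div_eq_div_iff_mul_eq_mul, mul_comm U, ← h5]

theorem p_U2 (h2 : S_C2) (h3 : S_C3) (hR : S_RI) : S_U2 := by
  intro k L _ _ _ _ _ _ g hg v hram
  classical
  obtain ⟨R, hRI⟩ := h2 k L v hram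
  set e := v.asIdeal.ramificationIdxIn (𝓞 L) with he
  have data : ∀ η : ((nMap k L).ker ⊓ uE L : Subgroup Lˣ), ∃ (b : 𝓞 L) (a : Fin e) (J : Ideal (𝓞 k)),
      b ≠ 0 ∧ g (b : L) = (η : Lˣ) * b ∧ J ≠ ⊥ ∧
        Ideal.span {b} = R ^ (a : ℕ) * J.map (algebraMap (𝓞 k) (𝓞 L)) := by
    intro η
    obtain ⟨hη1, hη2⟩ := η.2
    obtain ⟨b, hb0, hb⟩ := h3 k L g hg (η : Lˣ) hη2 hη1
    obtain ⟨a, ha, J, hJ, hI⟩ := hRI (Ideal.span {b})
      (by rw [Ne, Ideal.span_singleton_eq_bot]; exact hb0)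
      (u2_stable k L g hg η hη2 b hb)
    exact ⟨b, ⟨a, ha⟩, J, hb0, hb, hJ, hI⟩
  choose b a J hb0 hb hJ hI using data
  let f : ((nMap k L).ker ⊓ uE L : Subgroup Lˣ) → Fin e × ClassGroup (𝓞 k) := fun η =>
    (a η, ClassGroup.mk0 ⟨J η, mem_nonZeroDivisors_iff_ne_zero.mpr (hJ η)⟩)
  let F : Lˣ → Fin e × ClassGroup (𝓞 k) := fun η =>
    if h : η ∈ ((nMap k L).ker ⊓ uE L : Subgroup Lˣ) then f ⟨η, h⟩ else f 1
  have key := hR Lˣ ((uE L).map (dMap g)) ((nMap k L).ker ⊓ uE L) (Fin e × ClassGroup (𝓞 k)) F ?_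
  · refine key.trans (le_of_eq ?_)
    rw [Nat.card_prod, Nat.card_eq_fintype_card (α := Fin e), Fintype.card_fin,
      Nat.card_eq_fintype_card, classNumber, mul_comm]
  · intro η hη η' hη' hF
    have e1 : F η = f ⟨η, hη⟩ := dif_pos hη
    have e2 : F η' = f ⟨η', hη'⟩ := dif_pos hη'
    rw [e1, e2] at hF
    have hF1 : a ⟨η, hη⟩ = a ⟨η', hη'⟩ := congrArg Prod.fst hF
    have hF2 : ClassGroup.mk0 ⟨J ⟨η, hη⟩, mem_nonZeroDivisors_iff_ne_zero.mpr (hJ ⟨η, hη⟩)⟩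
        = ClassGroup.mk0 ⟨J ⟨η', hη'⟩, mem_nonZeroDivisors_iff_ne_zero.mpr (hJ ⟨η', hη'⟩)⟩ :=
      congrArg Prod.snd hF
    rw [ClassGroup.mk0_eq_mk0_iff] at hF2
    obtain ⟨x, y, hx, hy, hxy⟩ := hF2
    refine u2_compare k L g η η' (b ⟨η, hη⟩) (b ⟨η', hη'⟩) (hb0 _) (hb _) (hb _) x y hx ?_
    rw [← Ideal.span_singleton_mul_span_singleton, ← Ideal.span_singleton_mul_span_singleton,
      hI, hI, hF1]
    have h7 : ∀ z : 𝓞 k, Ideal.span {algebraMap (𝓞 k) (𝓞 L) z}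
        = (Ideal.span {z}).map (algebraMap (𝓞 k) (𝓞 L)) := by
      intro z
      rw [Ideal.map_span, Set.image_singleton]
    have h8 := congrArg (Ideal.map (algebraMap (𝓞 k) (𝓞 L))) hxy
    rw [Ideal.map_mul, Ideal.map_mul] at h8
    rw [h7, h7, mul_left_comm, mul_left_comm (Ideal.map _ (Ideal.span {y}))]
    exact congrArg _ h8

end Pool.Agent.Lib.MP_869d3b_nt.U
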