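import Pool.Agent.Lib.MP_869d3b_nt.U1
import Pool.Agent.Lib.MP_869d3b_nt.U2.C1
import Pool.Agent.Lib.MP_869d3b_nt.U2.C2
import Pool.Agent.Lib.MP_869d3b_nt.U2.C3
import Pool.Agent.Lib.MP_869d3b_nt.U2.C5
import Pool.Agent.Lib.MP_869d3b_nt.U2.RI
import Pool.Agent.Lib.MP_869d3b_nt.U2.U2
import Pool.Agent.Lib.MP_869d3b_nt.U2.PU

/-!
# MP_869d3b_nt : Theorem U, assembly (the local statement `S_U34` is a hypothesis)
-/

set_option autoImplicit false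

namespace Pool.Agent.Lib.MP_869d3b_nt

theorem U.t_C1 : U.S_C1 := U.p_C1

theorem U.t_C5 : U.S_C5 := U.p_C5

theorem U.t_C2 : U.S_C2 := U.p_C2 U.t_C1 U.t_C5

theorem U.t_C3 : U.S_C3 := U.p_C3

theorem U.t_U2 : U.S_U2 := U.p_U2 U.t_C2 U.t_C3 U.p_RI

theorem p_U_34 (h34 : U.S_U34) : S_U := p_U_of (U.thmU U.U1 h34 U.t_U2 U.t_C5)

end Pool.Agent.Lib.MP_869d3b_nt
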